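import Mathlib
import Pool.Agent.X211.SDR

/-!
For every infinite cardinal `α` there are an abelian and a non-abelian group with a subset whose
lower right subindex is `2` and whose upper right subindex is `α`.
-/

open Cardinal Set

universe u

namespace Pool.Agent.Results.MP_453038_al.LowerTwo

section Defs

variable {G : Type u} [Group G]

/-- The product `AB` is direct: every element of `AB` has exactly one representation. -/
def IsDirect (A B : Set G) : Prop :=
  ∀ a ∈ A, ∀ b ∈ B, ∀ a' ∈ A, ∀ b' ∈ B, a * b = a' * b' → a = a' ∧ b = b'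

/-- `B` is a right subfactor of `G` related to `A`: it is maximal under inclusion among the
subsets `B` for which `AB` is direct. -/
def IsRightSubfactor (A B : Set G) : Prop :=
  Maximal (fun B : Set G => IsDirect A B) B

/-- The right upper subindex `|G : A|⁺`. -/
noncomputable def upperIndex (A : Set G) : Cardinal.{u} :=
  sSup {κ : Cardinal.{u} | ∃ B : Set G, IsRightSubfactor A B ∧ Cardinal.mk B = κ}

/-- The right lower subindex `|G : A|⁻`. -/
noncomputable def lowerIndex (A : Set G) : Cardinal.{u} :=
  sInf {κ : Cardinal.{u} | ∃ B : Set G, IsRightSubfactor A B ∧ Cardinal.mk B = κ}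

theorem exists_subfactor_ge {A B : Set G} (h : IsDirect A B) :
    ∃ M : Set G, B ⊆ M ∧ IsRightSubfactor A M := by
  obtain ⟨M, hBM, hM⟩ := zorn_subset_nonempty {B : Set G | IsDirect A B} (by
    intro c hc hchain hne
    refine ⟨⋃₀ c, ?_, fun s hs => Set.subset_sUnion_of_mem hs⟩
    rintro a ha b ⟨s, hs, hb⟩ a' ha' b' ⟨t, ht, hb'⟩ e
    rcases hchain.total hs ht with hst | hst
    · exact hc ht a ha b (hst hb) a' ha' b' hb' e
    · exact hc hs a ha b hb a' ha' b' (hst hb') e) B h
  exact ⟨M, hBM, hM⟩

end Defs

section Construction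

variable (I : Type u)

/-- The underlying additive group: the `𝔽₂`-vector space with basis `e_i` (`i ∈ I`) and `b`. -/
abbrev V : Type u := (I →₀ ZMod 2) × ZMod 2

/-- the forbidden differences -/
def C : Set (V I) :=
  {g | (∃ i j : I, i ≠ j ∧ g = (Finsupp.single i 1 - Finsupp.single j 1, 0)) ∨ g = (0, 1)}

variable {I}

theorem not_three {g : V I} (hg : g ∈ C I) {i : Fin 3 → I} (hi : Function.Injective i)
    (h : ∀ k, g.1 (i k) ≠ 0) : False := by
  classical
  rcases hg with ⟨a, b, hab, rfl⟩ | rfl
  · have key : ∀ k, i k = a ∨ i k = b := by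
      intro k
      by_contra hcon
      push Not at hcon
      apply h k
      simp [Finsupp.single_apply, hcon.1.symm, hcon.2.symm]
    have h01 : i 0 ≠ i 1 := fun e => absurd (hi e) (by decide)
    have h02 : i 0 ≠ i 2 := fun e => absurd (hi e) (by decide)
    have h12 : i 1 ≠ i 2 := fun e => absurd (hi e) (by decide)
    rcases key 0 with h0 | h0 <;> rcases key 1 with h1 | h1 <;> rcases key 2 with h2 | h2 <;>
      simp_all
  · exact h 0 (by simp)

theorem neg_mem_C {g : V I} (hg : -g ∈ C I) : g ∈ C I := by
  rcases hg with ⟨i, j, hij, e⟩ | e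
  · refine Or.inl ⟨j, i, hij.symm, ?_⟩
    rw [← neg_neg g, e]
    simp
  · refine Or.inr ?_
    rw [← neg_neg g, e]
    ext <;> simp

theorem zero_notMem_C : (0 : V I) ∉ C I := by
  rintro (⟨i, j, hij, e⟩ | e)
  · have := congrArg (fun g : V I => g.1 i) e
    simp [hij.symm, hij] at this
  · have := congrArg Prod.snd e
    simp at this

theorem mk_V [Infinite I] : #(V I) = #I := by
  have h1 : #(I →₀ ZMod 2) = #I := by
    rw [Cardinal.mk_finsupp_lift_of_infinite]
    simp only [Cardinal.lift_uzero]
    refine max_eq_left ?_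
    have : Cardinal.lift.{u} #(ZMod 2) < ℵ₀ := by
      rw [Cardinal.lift_lt_aleph0]
      exact Cardinal.lt_aleph0_of_finite _
    exact this.le.trans (Cardinal.aleph0_le_mk I)
  have h2 : #(V I) = #(I →₀ ZMod 2) * Cardinal.lift.{u} #(ZMod 2) := by
    simp [V, Cardinal.mk_prod]
  rw [h2, h1]
  refine Cardinal.mul_eq_left (Cardinal.aleph0_le_mk I) ?_ ?_
  · have : Cardinal.lift.{u} #(ZMod 2) < ℵ₀ := by
      rw [Cardinal.lift_lt_aleph0]
      exact Cardinal.lt_aleph0_of_finite _
    exact this.le.trans (Cardinal.aleph0_le_mk I)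
  · rw [Ne, Cardinal.lift_eq_zero, Cardinal.mk_eq_zero_iff]
    simp

theorem exists_set [Infinite I] : ∃ A : Set (V I), (∀ a ∈ A, ∀ a' ∈ A, a - a' ∉ C I) ∧
    ∀ g : V I, g ∉ C I → ∃ a ∈ A, ∃ a' ∈ A, a - a' = g := by
  classical
  obtain ⟨_, _, hseg⟩ := Pool.Agent.X211.exists_wellOrder_small I
  -- choose fresh vectors
  let X : Type u := V I × ULift.{u} (Fin 3)
  have hX : #X = #I := by
    have : #X = #(V I) * #(ULift.{u} (Fin 3)) := by simp [X, Cardinal.mk_prod]
    rw [this, mk_V]
    refine Cardinal.mul_eq_left (Cardinal.aleph0_le_mk I) ?_ ?_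
    · exact (Cardinal.lt_aleph0_of_finite _).le.trans (Cardinal.aleph0_le_mk I)
    · simp
  let S : X → Set I := fun x => {i | ∀ j ∈ x.1.1.support, j < i}
  have hIio : ∀ i : I, #(Set.Iic i) < #I := by
    intro i
    have : Set.Iic i = insert i (Set.Iio i) := by
      ext j
      simp [le_iff_eq_or_lt]
    rw [this]
    refine lt_of_le_of_lt Cardinal.mk_insert_le ?_
    exact Cardinal.add_lt_of_lt (Cardinal.aleph0_le_mk I) (hseg i)
      (Cardinal.one_lt_aleph0.trans_le (Cardinal.aleph0_le_mk I))
  have hS : ∀ x : X, #X ≤ #(S x) := by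
    intro x
    rw [hX]
    rcases (x.1.1.support).eq_empty_or_nonempty with h | h
    · have : S x = Set.univ := by
        refine Set.eq_univ_of_forall fun i => ?_
        change ∀ j ∈ x.1.1.support, j < i
        rw [h]
        exact fun j hj => absurd hj (Finset.notMem_empty j)
      rw [this, Cardinal.mk_univ]
    · have : S x = (Set.Iic (x.1.1.support.max' h))ᶜ := by
        ext i
        simp only [S, Set.mem_ofPred_eq, Set.mem_compl_iff, Set.mem_Iic, not_le]
        constructor
        · intro h'
          exact h' _ (Finset.max'_mem _ _)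
        · intro h' j hj
          exact lt_of_le_of_lt (Finset.le_max' _ _ hj) h'
      rw [this, Cardinal.mk_compl_of_infinite _ (hIio _)]
  obtain ⟨T, hTinj, hT⟩ := Pool.Agent.X211.exists_injective_choice S hS
  let t : V I → Fin 3 → I := fun g k => T (g, ⟨k⟩)
  have htinj : ∀ g h k l, t g k = t h l → g = h ∧ k = l := by
    intro g h k l e
    have e1 := hTinj e
    exact ⟨congrArg Prod.fst e1, congrArg (fun p => (Prod.snd p).down) e1⟩
  have htgt : ∀ g : V I, ∀ k, ∀ j ∈ g.1.support, j < t g k := fun g k => hT (g, ⟨k⟩)
  let w : V I → (I →₀ ZMod 2) := fun g => ∑ k : Fin 3, Finsupp.single (t g k) 1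
  have hw1 : ∀ g k, w g (t g k) = 1 := by
    intro g k
    simp only [w, Finsupp.finsetSum_apply]
    rw [Finset.sum_eq_single k]
    · simp
    · intro l _ hl
      rw [Finsupp.single_apply, if_neg]
      intro e
      exact hl (htinj _ _ _ _ e).2
    · simp
  have hw0 : ∀ g h k, g ≠ h → w g (t h k) = 0 := by
    intro g h k hgh
    simp only [w, Finsupp.finsetSum_apply]
    refine Finset.sum_eq_zero fun l _ => ?_
    rw [Finsupp.single_apply, if_neg]
    intro e
    exact hgh (htinj _ _ _ _ e).1
  have hself : ∀ g : V I, ∀ k, g.1 (t g k) = 0 := by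
    intro g k
    by_contra hne
    exact lt_irrefl _ (htgt g k _ (Finsupp.mem_support_iff.mpr hne))
  -- main separation statement
  have hsep : ∀ g h : V I, g ≠ h → ∀ ε δ : Bool, (∀ k, g.1 (t h k) = 0) →
      (((w g, 0) + (if ε then g else 0) : V I) - ((w h, 0) + (if δ then h else 0) : V I)) ∉ C I := by
    intro g h hgh ε δ hz hC
    refine not_three hC (i := t h) (fun k l e => (htinj _ _ _ _ e).2) ?_
    intro k
    have e1 : ((if ε then g else 0 : V I)).1 (t h k) = 0 := by
      cases ε <;> simp [hz]
    have e2 : ((if δ then h else 0 : V I)).1 (t h k) = 0 := by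
      cases δ <;> simp [hself]
    simp [e1, e2, hw0 g h k hgh, hw1]
  refine ⟨{y | ∃ g : V I, g ∉ C I ∧ ∃ ε : Bool, y = (w g, 0) + (if ε then g else 0)}, ?_, ?_⟩
  · rintro _ ⟨g, hg, ε, rfl⟩ _ ⟨h, hh, δ, rfl⟩
    by_cases hgh : g = h
    · subst hgh
      cases ε <;> cases δ
      · simpa using zero_notMem_C
      · intro hc
        apply hg
        apply neg_mem_C
        simpa using hc
      · simpa using hg
      · simpa using zero_notMem_C
    · by_cases hz : ∀ k, g.1 (t h k) = 0
      · exact hsep g h hgh ε δ hz
      · push Not at hz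
        obtain ⟨k, hk⟩ := hz
        have hz' : ∀ l, h.1 (t g l) = 0 := by
          intro l
          by_contra hl
          have a1 := htgt g l _ (Finsupp.mem_support_iff.mpr hk)
          have a2 := htgt h k _ (Finsupp.mem_support_iff.mpr hl)
          exact absurd (a1.trans a2) (lt_irrefl _)
        intro hc
        apply hsep h g (Ne.symm hgh) δ ε hz'
        apply neg_mem_C
        rwa [neg_sub]
  · intro g hg
    exact ⟨(w g, 0) + g, ⟨g, hg, true, by simp⟩, (w g, 0), ⟨g, hg, false, by simp⟩, by simp⟩

end Construction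

section Main

variable {I : Type u} {H : Type u} [Group H]

/-- the set in the group `Multiplicative (V I) × H` -/
def lift (A : Set (V I)) : Set (Multiplicative (V I) × H) :=
  {p | Multiplicative.toAdd p.1 ∈ A}

theorem direct_iff {A : Set (V I)} (hA1 : ∀ a ∈ A, ∀ a' ∈ A, a - a' ∉ C I)
    (hA2 : ∀ g : V I, g ∉ C I → ∃ a ∈ A, ∃ a' ∈ A, a - a' = g)
    (B : Set (Multiplicative (V I) × H)) :
    IsDirect (lift A) B ↔ ∀ b ∈ B, ∀ b' ∈ B, b ≠ b' →
      Multiplicative.toAdd b.1 - Multiplicative.toAdd b'.1 ∈ C I := by
  constructor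
  · intro hD b hb b' hb' hne
    by_contra hC
    obtain ⟨a, ha, a', ha', e⟩ := hA2 _ hC
    apply hne
    have h1 := hD (Multiplicative.ofAdd a, 1) (by simpa [lift] using ha) b' hb'
      (Multiplicative.ofAdd a', b'.2 * b.2⁻¹) (by simpa [lift] using ha') b hb (by
        ext1
        · simp only [Prod.fst_mul]
          apply Multiplicative.toAdd.injective
          simp only [toAdd_mul, toAdd_ofAdd]
          have : a = (Multiplicative.toAdd b.1 - Multiplicative.toAdd b'.1) + a' := by
            rw [← e]; abel
          rw [this]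
          abel
        · simp)
    exact h1.2.symm
  · intro h a ha b hb a' ha' b' hb' e
    by_cases hbb : b = b'
    · subst hbb
      exact ⟨mul_right_cancel e, rfl⟩
    · exfalso
      have h1 := h b hb b' hb' hbb
      apply hA1 _ ha' _ ha
      have h2 : Multiplicative.toAdd a.1 + Multiplicative.toAdd b.1
          = Multiplicative.toAdd a'.1 + Multiplicative.toAdd b'.1 := by
        rw [← toAdd_mul, ← toAdd_mul, ← Prod.fst_mul, ← Prod.fst_mul, e]
      have h3 : Multiplicative.toAdd a'.1 - Multiplicative.toAdd a.1
          = Multiplicative.toAdd b.1 - Multiplicative.toAdd b'.1 := by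
        rw [sub_eq_sub_iff_add_eq_add, ← h2]
        abel
      rwa [h3]

theorem main [Infinite I] (hH : #H ≤ #I) : ∃ A : Set (Multiplicative (V I) × H),
    lowerIndex A = 2 ∧ upperIndex A = #I := by
  classical
  obtain ⟨A, hA1, hA2⟩ := exists_set (I := I)
  refine ⟨lift A, ?_, ?_⟩
  · have hle : ∀ κ ∈ {κ : Cardinal.{u} | ∃ B : Set (Multiplicative (V I) × H),
        IsRightSubfactor (lift A) B ∧ Cardinal.mk B = κ}, 2 ≤ κ := by
      rintro κ ⟨B, hB, rfl⟩
      have hne : B.Nonempty := by
        by_contra hcon
        rw [Set.not_nonempty_iff_eq_empty] at hcon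
        have h1 : IsDirect (lift A) ({1} : Set (Multiplicative (V I) × H)) := by
          rw [direct_iff hA1 hA2]
          rintro b hb b' hb' hbb
          exact absurd ((Set.mem_singleton_iff.mp hb).trans (Set.mem_singleton_iff.mp hb').symm) hbb
        have h2 := hB.2 h1 (by rw [hcon]; exact Set.empty_subset _)
        rw [hcon] at h2
        exact (h2 rfl).elim
      obtain ⟨b, hb⟩ := hne
      rw [Cardinal.two_le_iff]
      by_contra hcon
      push Not at hcon
      have hall : ∀ x ∈ B, x = b := fun x hx => congrArg Subtype.val (hcon ⟨x, hx⟩ ⟨b, hb⟩)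
      let b' : Multiplicative (V I) × H := (Multiplicative.ofAdd (0, 1) * b.1, b.2)
      have hbb' : b' ≠ b := by
        intro e
        have h3 := congrArg (fun g : V I => g.2)
          (congrArg Multiplicative.toAdd (congrArg Prod.fst e))
        simp [b'] at h3
      have h1 : IsDirect (lift A) ({b, b'} : Set (Multiplicative (V I) × H)) := by
        rw [direct_iff hA1 hA2]
        rintro x hx y hy hxy
        rcases hx with rfl | rfl <;> rcases hy with rfl | rfl
        · exact absurd rfl hxy
        · refine neg_mem_C ?_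
          refine Or.inr ?_
          simp [b']
        · refine Or.inr ?_
          simp [b']
        · exact absurd rfl hxy
      have h2 := hB.2 h1 (fun x hx => by rw [hall x hx]; exact Set.mem_insert _ _)
      exact hbb' (hall b' (h2 (by simp)))
    have hmem : (2 : Cardinal.{u}) ∈ {κ : Cardinal.{u} | ∃ B : Set (Multiplicative (V I) × H),
        IsRightSubfactor (lift A) B ∧ Cardinal.mk B = κ} := by
      let c : Multiplicative (V I) × H := (Multiplicative.ofAdd (0, 1), 1)
      have hc1 : c ≠ 1 := by
        intro e
        have := congrArg (fun g : V I => g.2) (congrArg Multiplicative.toAdd (congrArg Prod.fst e))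
        simp [c] at this
      have h1 : IsDirect (lift A) ({c, 1} : Set (Multiplicative (V I) × H)) := by
        rw [direct_iff hA1 hA2]
        rintro x hx y hy hxy
        rcases hx with rfl | rfl <;> rcases hy with rfl | rfl
        · exact absurd rfl hxy
        · refine Or.inr ?_
          simp [c]
        · refine neg_mem_C ?_
          refine Or.inr ?_
          simp [c]
        · exact absurd rfl hxy
      refine ⟨{c, 1}, ⟨h1, ?_⟩, ?_⟩
      · intro B hB hsub x hx
        rw [direct_iff hA1 hA2] at hB
        by_contra hx'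
        have hxc : x ≠ c := fun e => hx' (by simp [e])
        have hx1 : x ≠ 1 := fun e => hx' (by simp [e])
        have d1 := hB x hx c (hsub (by simp)) hxc
        have d2 := hB x hx 1 (hsub (by simp)) hx1
        simp only [c, toAdd_ofAdd] at d1
        simp only [Prod.fst_one, toAdd_one, sub_zero] at d2
        rcases d2 with ⟨i, j, hij, e⟩ | e
        · rw [e] at d1
          rcases d1 with ⟨i', j', _, e'⟩ | e'
          · have := congrArg Prod.snd e'
            simp at this
          · have := congrArg (fun g : V I => g.1 i) e'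
            simp [hij.symm, hij] at this
        · rw [e] at d1
          exact zero_notMem_C (by simpa using d1)
      · rw [Cardinal.mk_insert (by simpa using hc1), Cardinal.mk_singleton, one_add_one_eq_two]
    refine le_antisymm (csInf_le' hmem) (le_csInf ⟨_, hmem⟩ hle)
  · have hcard : ∀ B : Set (Multiplicative (V I) × H), #B ≤ #I := by
      intro B
      refine (Cardinal.mk_set_le B).trans ?_
      have : #(Multiplicative (V I) × H) = #(V I) * #H := by
        rw [Cardinal.mk_prod]
        simp only [Cardinal.lift_id]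
        rfl
      rw [this, mk_V]
      exact (mul_le_mul_right hH _).trans
        (Cardinal.mul_eq_self (Cardinal.aleph0_le_mk I)).le
    apply le_antisymm
    · apply csSup_le'
      rintro κ ⟨B, _, rfl⟩
      exact hcard B
    · let B₀ : Set (Multiplicative (V I) × H) :=
        Set.range (fun i : I => (Multiplicative.ofAdd (Finsupp.single i 1, 0), 1))
      have hB₀ : IsDirect (lift A) B₀ := by
        rw [direct_iff hA1 hA2]
        rintro _ ⟨i, rfl⟩ _ ⟨j, rfl⟩ hij
        refine Or.inl ⟨i, j, fun e => hij (by rw [e]), ?_⟩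
        simp
      obtain ⟨M, hM, hMs⟩ := exists_subfactor_ge hB₀
      have h1 : #I ≤ #M := by
        refine le_trans ?_ (Cardinal.mk_le_mk_of_subset hM)
        rw [Cardinal.mk_range_eq]
        intro i j e
        have := congrArg Prod.fst (congrArg Multiplicative.toAdd (congrArg Prod.fst e))
        exact Finsupp.single_left_injective one_ne_zero this
      refine h1.trans (le_csSup ?_ ⟨M, hMs, rfl⟩)
      exact ⟨#I, by rintro κ ⟨B, _, rfl⟩; exact hcard B⟩

end Main

/-- For every infinite cardinal `α` there are an abelian group and a non-abelian group, each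
containing a subset with right lower subindex `2` and right upper subindex `α`. -/
theorem result : ∀ α : Cardinal.{u}, ℵ₀ ≤ α →
    (∃ (G : Type u) (_ : CommGroup G) (A : Set G), lowerIndex A = 2 ∧ upperIndex A = α) ∧
    (∃ (G : Type u) (_ : Group G) (A : Set G), (∃ x y : G, x * y ≠ y * x) ∧
      lowerIndex A = 2 ∧ upperIndex A = α) := by
  intro α hα
  induction α using Cardinal.inductionOn with
  | _ I =>
    have : Infinite I := Cardinal.infinite_iff.mpr hα
    constructor
    · obtain ⟨A, h1, h2⟩ := main (I := I) (H := PUnit.{u + 1}) (by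
        exact (Cardinal.lt_aleph0_of_finite _).le.trans hα)
      exact ⟨Multiplicative (V I) × PUnit.{u + 1}, inferInstance, A, h1, h2⟩
    · obtain ⟨A, h1, h2⟩ := main (I := I) (H := ULift.{u} (Equiv.Perm (Fin 3))) (by
        exact (Cardinal.lt_aleph0_of_finite _).le.trans hα)
      refine ⟨Multiplicative (V I) × ULift.{u} (Equiv.Perm (Fin 3)), inferInstance, A, ?_, h1, h2⟩
      refine ⟨(1, ⟨Equiv.swap 0 1⟩), (1, ⟨Equiv.swap 1 2⟩), ?_⟩
      intro e
      have := congrArg (fun p => (Prod.snd p).down) e
      revert this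
      simp only [Prod.snd_mul, ULift.mul_down]
      decide

end Pool.Agent.Results.MP_453038_al.LowerTwo
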